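import Pool.Agent.MNT.StmtsA

set_option autoImplicit false

/-!
# MNT, row REP: the distances are represented by a laminar family
-/

namespace Pool.Agent.MNT.H16

open Polynomial NumberField
open scoped Classical

/-- REP -/
theorem rep (chn : ChnStmt) (ult : UltStmt) : RepStmt := by
  intro E _ v c₀ hv P _ _ hP z hz
  have hpos : ∀ p q, p ≠ q → 0 < v (z p - z q) := fun p q h => v.pos (sub_ne_zero.2 (hz.ne h))
  obtain ⟨δ', h1, h2, h3⟩ := chn P (dis v z) c₀ hv.1
    (fun p q => by
      unfold dis
      rw [v.map_sub])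
    (by
      intro p q r hpq hqr hpr
      have h4 : v (z p - z r) ≤ Real.exp c₀ * max (v (z p - z q)) (v (z q - z r)) := by
        have h5 := hv.2 (z p - z q) (z q - z r)
        rwa [sub_add_sub_cancel] at h5
      unfold dis
      rcases le_total (v (z p - z q)) (v (z q - z r)) with h6 | h6
      · rw [max_eq_right h6] at h4
        have h7 := Real.log_le_log (hpos p r hpr) h4
        rw [Real.log_mul (Real.exp_ne_zero _) (hpos q r hqr).ne', Real.log_exp] at h7
        have h8 := min_le_right (-Real.log (v (z p - z q))) (-Real.log (v (z q - z r)))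
        linarith
      · rw [max_eq_left h6] at h4
        have h7 := Real.log_le_log (hpos p r hpr) h4
        rw [Real.log_mul (Real.exp_ne_zero _) (hpos p q hpq).ne', Real.log_exp] at h7
        have h8 := min_le_left (-Real.log (v (z p - z q))) (-Real.log (v (z q - z r)))
        linarith)
  obtain ⟨Λ, hΛ⟩ := ult P δ' hP h1 h2
  refine ⟨Λ, fun p q hpq => ?_⟩
  have h4 := abs_le.1 (hΛ p q hpq)
  have h5 := h3 p q hpq
  rw [abs_le]
  have h6 : 0 ≤ (Fintype.card P : ℝ) * c₀ := mul_nonneg (Nat.cast_nonneg _) hv.1
  constructor <;> linarith [h4.1, h4.2, h5.1, h5.2]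

end Pool.Agent.MNT.H16
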